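import Pool.Agent.Helper20.OP.W.Cov

/-!
# Block OP-V4: the model has width two and is the intersection of two linear orders

`WidthTwo V R`: `R 0` is a strict partial order without three pairwise incomparable elements, and it is the
intersection of two strict linear orders.

Proof.  Incomparable elements lie in two consecutive rows (same cell and same row: comparable; rows at distance `≥ 2`:
comparable); three rows with pairwise distance `1` do not exist.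
`L₁`: lexicographic order of `(i / 2, j, i, t)`; `L₂`: lexicographic order of `((i + 1) / 2, j, i, t)`.  These are strict
linear orders (the tuple determines the element: `i`, `j`, `t`).  Intersection: same row: both say `(j, t)`
lexicographically.  Rows `i`, `i + 1`, `i` even: `L₁` says `j ≤ j'` for `(i, j) < (i + 1, j')`, `L₂` says always, and conversely
`(i + 1, j') < (i, j)` is false in `L₂`.  `i` odd: exchange `L₁`, `L₂`.  Distance `≥ 2`: both say yes.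
-/

set_option autoImplicit false

namespace Pool.Agent.Helper20.OP

/-- posets of width at most two which are intersections of two linear orders -/
def WidthTwo (V : Type) (R : Str 1 V) : Prop :=
  (∀ x, ¬ R 0 x x) ∧ (∀ x y z, R 0 x y → R 0 y z → R 0 x z) ∧
  (∀ x y z : V, x = y ∨ y = z ∨ x = z ∨ R 0 x y ∨ R 0 y x ∨ R 0 y z ∨ R 0 z y ∨ R 0 x z ∨ R 0 z x) ∧
  ∃ L₁ L₂ : V → V → Prop, StrictLin L₁ ∧ StrictLin L₂ ∧ ∀ x y, R 0 x y ↔ L₁ x y ∧ L₂ x y

namespace W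

/-- the key `((i + c) / 2, j, i, t)` in the lexicographic order -/
private def key (c : ℕ) (x : ℕ × ℕ × ℕ) : ℕ ×ₗ ℕ ×ₗ ℕ ×ₗ ℕ :=
  toLex ((x.1 + c) / 2, toLex (x.2.1, toLex (x.1, x.2.2)))

private lemma pos_ext {q : ℕ} {κ : ℕ → ℕ → ℕ} {N : ℕ} {x y : Pos q κ N}
    (h1 : x.1.1 = y.1.1) (h2 : x.1.2.1 = y.1.2.1) (h3 : x.1.2.2 = y.1.2.2) : x = y :=
  Subtype.ext (Prod.ext h1 (Prod.ext h2 h3))

private lemma key_inj {c : ℕ} {x y : ℕ × ℕ × ℕ} (h : key c x = key c y) : x = y := by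
  simp only [key, toLex_inj, Prod.mk.injEq] at h
  exact Prod.ext h.2.2.1 (Prod.ext h.2.1 h.2.2.2)

private lemma key_lt {c : ℕ} {x y : ℕ × ℕ × ℕ} : key c x < key c y ↔
    ((x.1 + c) / 2 < (y.1 + c) / 2 ∨ ((x.1 + c) / 2 = (y.1 + c) / 2 ∧
    (x.2.1 < y.2.1 ∨ (x.2.1 = y.2.1 ∧ (x.1 < y.1 ∨ (x.1 = y.1 ∧ x.2.2 < y.2.2)))))) := by
  simp only [key, Prod.Lex.toLex_lt_toLex]

private lemma key_lin {q : ℕ} {κ : ℕ → ℕ → ℕ} {N : ℕ} (c : ℕ) :
    StrictLin (fun x y : Pos q κ N => key c x.1 < key c y.1) := by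
  refine ⟨fun x => lt_irrefl _, fun x y z h h' => lt_trans h h', fun x y => ?_⟩
  rcases lt_trichotomy (key c x.1) (key c y.1) with h | h | h
  · exact Or.inl h
  · exact Or.inr (Or.inl (Subtype.ext (key_inj h)))
  · exact Or.inr (Or.inr h)

private lemma incomp {x y : ℕ × ℕ × ℕ} (hne : ¬ (x.1 = y.1 ∧ x.2.1 = y.2.1 ∧ x.2.2 = y.2.2))
    (h : ¬ lt3 x y) (h' : ¬ lt3 y x) : x.1 = y.1 + 1 ∨ y.1 = x.1 + 1 := by
  simp only [lt3, not_or] at h h'
  obtain ⟨a1, a2, a3, a4⟩ := h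
  obtain ⟨b1, b2, b3, b4⟩ := h'
  by_contra hc
  rw [not_or] at hc
  have e1 : x.1 = y.1 := by omega
  have e2 : x.2.1 = y.2.1 := by omega
  omega

theorem widthTwo_pos {q : ℕ} {κ : ℕ → ℕ → ℕ} {N : ℕ} : WidthTwo (Pos q κ N) (pos q κ N) := by
  refine ⟨?_, ?_, ?_, fun x y => key 0 x.1 < key 0 y.1, fun x y => key 1 x.1 < key 1 y.1,
    key_lin 0, key_lin 1, ?_⟩
  · rintro ⟨⟨i, j, t⟩, hx⟩ h
    simp only [pos, lt3] at h
    omega
  · rintro ⟨⟨i, j, t⟩, hx⟩ ⟨⟨i', j', t'⟩, hy⟩ ⟨⟨i'', j'', t''⟩, hz⟩ h h'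
    simp only [pos, lt3] at h h' ⊢
    clear hx hy hz
    rcases h with h | h | h | h <;> rcases h' with h' | h' | h' | h' <;> omega
  · intro x y z
    by_cases h1 : x.1.1 = y.1.1 ∧ x.1.2.1 = y.1.2.1 ∧ x.1.2.2 = y.1.2.2
    · exact Or.inl (pos_ext h1.1 h1.2.1 h1.2.2)
    by_cases h2 : y.1.1 = z.1.1 ∧ y.1.2.1 = z.1.2.1 ∧ y.1.2.2 = z.1.2.2
    · exact Or.inr (Or.inl (pos_ext h2.1 h2.2.1 h2.2.2))
    by_cases h3 : x.1.1 = z.1.1 ∧ x.1.2.1 = z.1.2.1 ∧ x.1.2.2 = z.1.2.2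
    · exact Or.inr (Or.inr (Or.inl (pos_ext h3.1 h3.2.1 h3.2.2)))
    right; right; right
    by_contra hc
    simp only [pos, not_or] at hc
    obtain ⟨c1, c2, c3, c4, c5, c6⟩ := hc
    have g1 := incomp h1 c1 c2
    have g2 := incomp h2 c3 c4
    have g3 := incomp h3 c5 c6
    omega
  · rintro ⟨⟨i, j, t⟩, hx⟩ ⟨⟨i', j', t'⟩, hy⟩
    simp only [pos, lt3, key_lt]
    clear hx hy
    rcases Nat.lt_trichotomy i i' with h | h | h
    · by_cases h2 : i' = i + 1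
      · subst h2
        rcases Nat.even_or_odd' i with ⟨m, rfl | rfl⟩
        · omega
        · omega
      · omega
    · subst h
      omega
    · omega

end W

end Pool.Agent.Helper20.OP
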