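import Pool.Agent.Helper20.OP.W.Blk
import Pool.Agent.Helper20.OP.GridEnc

/-!
# Block OP-V3: the model satisfies the condition

`z i j` is the first element of the even cell `(i, 2 j)`; `own v = (i, j / 2)` for `v = (i, j, t)`.

Proof.  By `blk_iff`: `Ev κ' x` (`κ' < q`) iff `x = (i, j, 0)` with `len i j = κ' + 1`; as the odd cells have length
`≥ q + 1`, this means `j = 2 j₀` and `κ' = κ i j₀`.  So `Z x ↔ x = z i j₀`; `D`, `t` as required.  `Ptn (z i j) y`: `x'` is the
last element of `(i, 2 j)`; `y` is a cover of `x'` and the first element of a module of length `2 q - κ i j ≥ q + 1`, so not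
an even cell: by `cov_iff`, `y = (i, 2 j + 1, 0)` (the cover `(i + 1, 2 j, 0)` is an even cell; `2 j + 1 ≠ 2 N`).
`RR (z i j) z'`: `y' =` the last element of `(i, 2 j + 1)`, its covers are `(i, 2 j + 2, 0)`, the odd cell `(i + 1, 2 j + 1, 0)`
(not in `Z`) and, if `j = N - 1`, `(i + 2, 0, 0)`, which is excluded by the flag `(c κ).2.2 = false` (the hypothesis says that the
flag is `true` iff `j = N - 1`).  `UU (z i j) z'`: covers of the last element of `(i, 2 j)` which are even cells:
`(i + 1, 2 j, 0)` only.  `Own v (z i j)` iff `v = (i, 2 j, l)` or `v = (i, 2 j + 1, l)`.  The number of these `v` is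
`(κ i j + 1) + (2 q - κ i j) = 2 q + 1`.
`card_pos` follows from the number of elements of the fibres of `own` (or from `GridCode.decode`-like counting): the sum of `2 q + 1`
over all `i, j < N`.
-/

set_option autoImplicit false

namespace Pool.Agent.Helper20.OP.W

open Pool.Agent.Helper29.Prefix

variable {q : ℕ} {κ : ℕ → ℕ → ℕ} {N : ℕ}

lemma len_even (q : ℕ) (κ : ℕ → ℕ → ℕ) (i j : ℕ) : len q κ i (2 * j) = κ i j + 1 := by
  unfold len
  rw [if_pos (by omega), show 2 * j / 2 = j by omega]

lemma len_odd (q : ℕ) (κ : ℕ → ℕ → ℕ) (i j : ℕ) : len q κ i (2 * j + 1) = 2 * q - κ i j := by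
  unfold len
  rw [if_neg (by omega), show (2 * j + 1) / 2 = j by omega]

/-- the elements as a sigma type -/
def posEquiv (q : ℕ) (κ : ℕ → ℕ → ℕ) (N : ℕ) :
    Pos q κ N ≃ Σ p : Fin N × Fin (2 * N), Fin (len q κ p.1 p.2) where
  toFun x := ⟨(⟨x.1.1, x.2.1⟩, ⟨x.1.2.1, x.2.2.1⟩), ⟨x.1.2.2, x.2.2.2⟩⟩
  invFun y := ⟨(y.1.1.1, y.1.2.1, y.2.1), y.1.1.2, y.1.2.2, y.2.2⟩
  left_inv _ := rfl
  right_inv _ := rfl

instance : Finite (Pos q κ N) := Finite.of_equiv _ (posEquiv q κ N).symm

theorem card_pos (h : Good q κ N) : Nat.card (Pos q κ N) = (2 * q + 1) * N ^ 2 := by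
  rw [Nat.card_congr (posEquiv q κ N), Nat.card_eq_fintype_card, Fintype.card_sigma,
    Fintype.sum_prod_type]
  have h1 : ∀ i : Fin N, ∑ j : Fin (2 * N), Fintype.card (Fin (len q κ i j)) = (2 * q + 1) * N := by
    intro i
    have h2 : ∀ M, M ≤ N → ∑ j ∈ Finset.range (2 * M), len q κ i j = (2 * q + 1) * M := by
      intro M
      induction M with
      | zero => simp
      | succ M ih =>
        intro hM
        have h3 := h.2 i M i.2 (by omega)
        rw [show 2 * (M + 1) = 2 * M + 1 + 1 by ring, Finset.sum_range_succ, Finset.sum_range_succ,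
          ih (by omega), len_even, len_odd]
        have h4 : (2 * q + 1) * (M + 1) = (2 * q + 1) * M + (2 * q + 1) := by ring
        omega
    simp only [Fintype.card_fin]
    rw [Fin.sum_univ_eq_sum_range (fun j => len q κ i j) (2 * N)]
    exact h2 N le_rfl
  rw [Finset.sum_congr rfl (fun i _ => h1 i)]
  simp
  ring

/-- the element with given coordinates -/
def mkp (i j t : ℕ) (hi : i < N) (hj : j < 2 * N) (ht : t < len q κ i j) : Pos q κ N :=
  ⟨(i, j, t), hi, hj, ht⟩

/-- the element with given coordinates -/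
lemma exists_pos {i j t : ℕ} (hi : i < N) (hj : j < 2 * N) (ht : t < len q κ i j) :
    ∃ x : Pos q κ N, x.1 = (i, j, t) := ⟨⟨(i, j, t), hi, hj, ht⟩, rfl⟩

lemma blk_ex (h : Good q κ N) (l : ℕ) (x : Pos q κ N) : (∃ y, Blk (pos q κ N) l x y) ↔
    (x.1.2.2 = 0 ∧ l + 1 = len q κ x.1.1 x.1.2.1) := by
  constructor
  · rintro ⟨y, hy⟩
    rw [blk_iff h] at hy
    exact ⟨hy.2.2.1, hy.2.2.2.2⟩
  · rintro ⟨h1, h2⟩
    obtain ⟨y, hy⟩ := exists_pos (q := q) (κ := κ) (t := l) x.2.1 x.2.2.1 (by omega)
    refine ⟨y, ?_⟩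
    rw [blk_iff h]
    simp [hy, h1, h2]

/-- even cells -/
lemma ev_iff (h : Good q κ N) {l : ℕ} (hl : l < q) (x : Pos q κ N) : Ev (pos q κ N) l x ↔
    ∃ i j, i < N ∧ j < N ∧ x.1 = (i, 2 * j, 0) ∧ l = κ i j := by
  unfold Ev
  rw [blk_ex h]
  obtain ⟨⟨i, j, t⟩, h1, h2, h3⟩ := x
  simp only at h1 h2 h3 ⊢
  constructor
  · rintro ⟨h4, h5⟩
    rcases Nat.even_or_odd' j with ⟨j₀, rfl | rfl⟩
    · rw [len_even] at h5
      refine ⟨i, j₀, h1, by omega, ?_, by omega⟩
      rw [h4]
    · rw [len_odd] at h5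
      have := h.2 i j₀ h1 (by omega)
      omega
  · rintro ⟨i', j', h4, h5, h6, h7⟩
    simp only [Prod.mk.injEq] at h6
    obtain ⟨rfl, rfl, rfl⟩ := h6
    rw [len_even]
    exact ⟨rfl, by omega⟩

/-- the first element of an even cell -/
def zz (h : Good q κ N) (i j : ℕ) : Pos q κ N :=
  if h' : i < N ∧ j < N then mkp i (2 * j) 0 h'.1 (by omega) (by rw [len_even]; omega)
  else mkp 0 (2 * 0) 0 (by have := h.1; omega) (by have := h.1; omega) (by rw [len_even]; omega)

lemma zz_val (h : Good q κ N) {i j : ℕ} (hi : i < N) (hj : j < N) : (zz h i j).1 = (i, 2 * j, 0) := by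
  unfold zz
  rw [dif_pos ⟨hi, hj⟩]
  rfl

lemma eq_zz (h : Good q κ N) {i j : ℕ} (hi : i < N) (hj : j < N) {x : Pos q κ N}
    (hx : x.1 = (i, 2 * j, 0)) : x = zz h i j := by
  apply Subtype.ext
  rw [hx, zz_val h hi hj]

lemma z_iff (h : Good q κ N) (x : Pos q κ N) : Z (pos q κ N) q x ↔
    ∃ i j, i < N ∧ j < N ∧ x = zz h i j := by
  unfold Z
  constructor
  · rintro ⟨l, hl⟩
    obtain ⟨i, j, h1, h2, h3, _⟩ := (ev_iff h l.2 x).1 hl
    exact ⟨i, j, h1, h2, eq_zz h h1 h2 h3⟩
  · rintro ⟨i, j, h1, h2, rfl⟩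
    exact ⟨⟨κ i j, h.2 i j h1 h2⟩, (ev_iff h (h.2 i j h1 h2) _).2 ⟨i, j, h1, h2, zz_val h h1 h2, rfl⟩⟩

lemma ev_zz (h : Good q κ N) {i j : ℕ} (hi : i < N) (hj : j < N) (l : Fin q) :
    Ev (pos q κ N) l (zz h i j) ↔ l = ⟨κ i j, h.2 i j hi hj⟩ := by
  rw [ev_iff h l.2, zz_val h hi hj]
  constructor
  · rintro ⟨i', j', _, _, h3, h4⟩
    simp only [Prod.mk.injEq, and_true] at h3
    obtain ⟨rfl, h5⟩ := h3
    have h6 : j' = j := by omega
    subst h6
    exact Fin.ext h4
  · intro h1
    refine ⟨i, j, hi, hj, rfl, ?_⟩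
    rw [h1]

lemma ex_ev (h : Good q κ N) {i j : ℕ} (hi : i < N) (hj : j < N) (P : Fin q → Prop) :
    (∃ l : Fin q, P l ∧ Ev (pos q κ N) l (zz h i j)) ↔ P ⟨κ i j, h.2 i j hi hj⟩ := by
  constructor
  · rintro ⟨l, h1, h2⟩
    rw [ev_zz h hi hj] at h2
    rw [← h2]
    exact h1
  · intro h1
    exact ⟨_, h1, (ev_zz h hi hj _).2 rfl⟩

lemma ptn_iff (h : Good q κ N) {i j : ℕ} (hi : i < N) (hj : j < N) (y : Pos q κ N) :
    Ptn (pos q κ N) q (zz h i j) y ↔ y.1 = (i, 2 * j + 1, 0) := by
  have hk := h.2 i j hi hj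
  unfold Ptn
  constructor
  · rintro ⟨l, x', y', h1, h2, h3⟩
    rw [blk_iff h, zz_val h hi hj] at h1
    simp only [len_even] at h1
    rw [cov_iff h] at h2
    have h3' := (blk_ex h _ y).1 ⟨y', h3⟩
    obtain ⟨⟨a, b, t⟩, ha, hb, ht⟩ := y
    obtain ⟨⟨a', b', t'⟩, ha', hb', ht'⟩ := x'
    simp only at h1 h2 h3' ha hb ht ha' hb' ht' ⊢
    obtain ⟨rfl, rfl, _, rfl, h6⟩ := h1
    rcases h2 with ⟨h7, h8, h9⟩ | ⟨h7, h8, h9⟩
    · rw [h9] at h3'
      omega
    · subst h8
      rcases h9 with ⟨rfl, rfl⟩ | ⟨rfl, rfl⟩ | ⟨rfl, h10, rfl⟩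
      · rfl
      · rw [len_even] at h3'
        have := h.2 (a' + 1) j ha hj
        omega
      · omega
  · intro hy
    obtain ⟨x', hx'⟩ := exists_pos (q := q) (κ := κ) (N := N) (i := i) (j := 2 * j) (t := κ i j) hi (by omega)
      (by rw [len_even]; omega)
    obtain ⟨y', hy'⟩ := (blk_ex h (2 * q - κ i j - 1) y).2 (by
      rw [hy]
      simp only [len_odd, true_and]
      omega)
    refine ⟨⟨κ i j, hk⟩, x', y', ?_, ?_, hy'⟩
    · rw [blk_iff h, zz_val h hi hj, hx']
      simp [len_even]
    · rw [cov_iff h, hx', hy]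
      right
      simp [len_even]

lemma last_iff (h : Good q κ N) (x y : Pos q κ N) : Last (pos q κ N) q x y ↔
    (y.1.1 = x.1.1 ∧ y.1.2.1 = x.1.2.1 ∧ x.1.2.2 = 0 ∧ y.1.2.2 + 1 = len q κ x.1.1 x.1.2.1) := by
  unfold Last
  constructor
  · rintro ⟨l, hl⟩
    rw [blk_iff h] at hl
    obtain ⟨h1, h2, h3, h4, h5⟩ := hl
    exact ⟨h1, h2, h3, by rw [h4]; exact h5⟩
  · rintro ⟨h1, h2, h3, h4⟩
    have h5 : len q κ x.1.1 x.1.2.1 ≤ 2 * q := by
      have h6 := x.2
      rcases Nat.even_or_odd' x.1.2.1 with ⟨j₀, h7 | h7⟩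
      · rw [h7, len_even]
        have := h.2 x.1.1 j₀ h6.1 (by omega)
        omega
      · rw [h7, len_odd]
        omega
    refine ⟨⟨y.1.2.2, by omega⟩, ?_⟩
    rw [blk_iff h]
    exact ⟨h1, h2, h3, rfl, h4⟩

/-- the owner -/
def own (v : Pos q κ N) : Option (ℕ × ℕ) := some (v.1.1, v.1.2.1 / 2)

lemma card_own (h : Good q κ N) {i j : ℕ} (hi : i < N) (hj : j < N) :
    Nat.card {v : Pos q κ N // own v = some (i, j)} = 2 * q + 1 := by
  have hk := h.2 i j hi hj
  let e : {v : Pos q κ N // own v = some (i, j)} ≃ Fin (κ i j + 1) ⊕ Fin (2 * q - κ i j) := 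
    { toFun := fun v => if hv : v.1.1.2.1 % 2 = 0 then Sum.inl ⟨v.1.1.2.2, by
          have h1 := v.1.2.2.2
          have h2 := v.2
          simp only [own, Option.some.injEq, Prod.mk.injEq] at h2
          rw [h2.1, show v.1.1.2.1 = 2 * j by omega, len_even] at h1
          exact h1⟩
        else Sum.inr ⟨v.1.1.2.2, by
          have h1 := v.1.2.2.2
          have h2 := v.2
          simp only [own, Option.some.injEq, Prod.mk.injEq] at h2
          rw [h2.1, show v.1.1.2.1 = 2 * j + 1 by omega, len_odd] at h1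
          exact h1⟩
      invFun := fun s => match s with
        | Sum.inl t => ⟨mkp i (2 * j) t.1 hi (by omega) (by rw [len_even]; exact t.2), by
            simp [own, mkp]⟩
        | Sum.inr t => ⟨mkp i (2 * j + 1) t.1 hi (by omega) (by rw [len_odd]; exact t.2), by
            simp only [own, mkp, Option.some.injEq, Prod.mk.injEq, true_and]
            omega⟩
      left_inv := by
        intro v
        obtain ⟨⟨⟨a, b, t⟩, ha, hb, ht⟩, hv⟩ := v
        simp only [own, Option.some.injEq, Prod.mk.injEq] at hv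
        obtain ⟨rfl, rfl⟩ := hv
        by_cases hb' : b % 2 = 0
        · simp only [hb', dite_true]
          apply Subtype.ext
          apply Subtype.ext
          simp only [mkp, Prod.mk.injEq, and_true, true_and]
          omega
        · simp only [hb', dite_false]
          apply Subtype.ext
          apply Subtype.ext
          simp only [mkp, Prod.mk.injEq, and_true, true_and]
          omega
      right_inv := by
        intro s
        rcases s with t | t
        · simp [mkp]
        · simp [mkp] }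
  rw [Nat.card_congr e, Nat.card_eq_fintype_card, Fintype.card_sum, Fintype.card_fin, Fintype.card_fin]
  omega

theorem cond_pos {Γ : Type} {W : Wang Γ} (c : Fin q → Γ × Bool × Bool) (h : Good q κ N)
    (f : ℕ → ℕ → Γ)
    (hf : (∀ x y, x + 1 < N → y < N → W.R (f x y) (f (x + 1) y)) ∧
      (∀ x y, x < N → y + 1 < N → W.U (f x y) (f x (y + 1))) ∧
      (∀ y, y < N → W.l (f 0 y)) ∧ (∀ y, y < N → W.r (f (N - 1) y)) ∧
      (∀ x, x < N → W.b (f x 0)) ∧ (∀ x, x < N → W.t (f x (N - 1))) ∧ W.c (f 0 0))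
    (hκ : ∀ i j (hi : i < N) (hj : j < N),
      c ⟨κ i j, h.2 i j hi hj⟩ = (f j i, decide (i = j), decide (j = N - 1))) :
    Cond c W (pos q κ N) := by
  have hN := h.1
  have main : GridStd W N f (2 * q + 1) 0 (Z (pos q κ N) q) (pos q κ N 0) (RR c (pos q κ N))
      (UU (pos q κ N) q) (D c (pos q κ N)) (t c (pos q κ N)) (Own (pos q κ N) q) (fun _ => False)
      (zz h) own := by
    refine
      { hN := h.1
        tR := hf.1
        tU := hf.2.1
        tl := hf.2.2.1
        tr := hf.2.2.2.1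
        tb := hf.2.2.2.2.1
        tt := hf.2.2.2.2.2.1
        tc := hf.2.2.2.2.2.2
        inj := ?_
        Z_iff := z_iff h
        RR_iff := ?_
        UU_iff := ?_
        irr := pos_irr
        trans := pos_trans
        ltR := ?_
        ltU := ?_
        D_iff := ?_
        t_iff := ?_
        Own_iff := ?_
        own_ex := fun v hv => hv.elim
        own_some := ?_
        cnt := fun i j hi hj => card_own h hi hj
        ext := ?_ }
    · intro i j i' j' hi hj hi' hj' he
      have h1 := congrArg Subtype.val he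
      rw [zz_val h hi hj, zz_val h hi' hj'] at h1
      simp only [Prod.mk.injEq, and_true] at h1
      omega
    · -- right neighbours
      intro x y
      unfold RR
      constructor
      · rintro ⟨hx, hy, h3, w, w', h4, h5, h6⟩
        obtain ⟨i, j, hi, hj, rfl⟩ := (z_iff h x).1 hx
        obtain ⟨i', j', hi', hj', rfl⟩ := (z_iff h y).1 hy
        rw [ex_ev h hi hj (fun l => (c l).2.2 = false), hκ i j hi hj] at h3
        simp only [decide_eq_false_iff_not] at h3
        rw [ptn_iff h hi hj] at h4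
        rw [last_iff h, h4] at h5
        rw [cov_iff h, zz_val h hi' hj'] at h6
        simp only at h5 h6
        obtain ⟨h7, h8, _, h9⟩ := h5
        rw [h7, h8] at h6
        refine ⟨i, j, hi, by omega, rfl, ?_⟩
        rcases h6 with ⟨_, h10, _⟩ | ⟨_, _, h10⟩
        · omega
        · rcases h10 with ⟨h11, h12⟩ | ⟨h11, h12⟩ | ⟨h11, h12, h13⟩
          · have h13 : j' = j + 1 := by omega
            rw [h11, h13]
          · omega
          · omega
      · rintro ⟨i, j, hi, hj, rfl, rfl⟩
        refine ⟨(z_iff h _).2 ⟨i, j, hi, by omega, rfl⟩, (z_iff h _).2 ⟨i, j + 1, hi, hj, rfl⟩, ?_, ?_⟩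
        · rw [ex_ev h hi (by omega) (fun l => (c l).2.2 = false), hκ i j hi (by omega)]
          simp only [decide_eq_false_iff_not]
          omega
        · have hk := h.2 i j hi (by omega)
          obtain ⟨w, hw⟩ := exists_pos (q := q) (κ := κ) (N := N) (i := i) (j := 2 * j + 1) (t := 0) hi
            (by omega) (by rw [len_odd]; omega)
          obtain ⟨w', hw'⟩ := exists_pos (q := q) (κ := κ) (N := N) (i := i) (j := 2 * j + 1)
            (t := 2 * q - κ i j - 1) hi (by omega) (by rw [len_odd]; omega)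
          refine ⟨w, w', (ptn_iff h hi (by omega) w).2 hw, ?_, ?_⟩
          · rw [last_iff h, hw, hw']
            simp only [len_odd, true_and]
            omega
          · rw [cov_iff h, hw', zz_val h hi hj]
            right
            simp only [len_odd, true_and]
            omega
    · -- upper neighbours
      intro x y
      unfold UU
      constructor
      · rintro ⟨hx, hy, w, h4, h5⟩
        obtain ⟨i, j, hi, hj, rfl⟩ := (z_iff h x).1 hx
        obtain ⟨i', j', hi', hj', rfl⟩ := (z_iff h y).1 hy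
        rw [last_iff h, zz_val h hi hj] at h4
        rw [cov_iff h, zz_val h hi' hj'] at h5
        simp only at h4 h5
        obtain ⟨h6, h7, _, h8⟩ := h4
        rw [h6, h7] at h5
        rcases h5 with ⟨_, _, h10⟩ | ⟨_, _, h10⟩
        · omega
        · rcases h10 with ⟨h11, h12⟩ | ⟨h11, h12⟩ | ⟨h11, h12, h13⟩
          · omega
          · have h13 : j' = j := by omega
            subst h11 h13
            exact ⟨i, j', hi', hj, rfl, rfl⟩
          · omega
      · rintro ⟨i, j, hi, hj, rfl, rfl⟩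
        refine ⟨(z_iff h _).2 ⟨i, j, by omega, hj, rfl⟩, (z_iff h _).2 ⟨i + 1, j, hi, hj, rfl⟩, ?_⟩
        obtain ⟨w, hw⟩ := exists_pos (q := q) (κ := κ) (N := N) (i := i) (j := 2 * j) (t := κ i j) (by omega)
            (by omega) (by rw [len_even]; omega)
        refine ⟨w, ?_, ?_⟩
        · rw [last_iff h, hw, zz_val h (by omega) hj]
          simp [len_even]
        · rw [cov_iff h, hw, zz_val h hi hj]
          right
          simp [len_even]
    · intro i j hi hj
      show lt3 _ _
      rw [zz_val h hi (by omega), zz_val h hi hj]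
      unfold lt3
      simp only [true_and]
      omega
    · intro i j hi hj
      show lt3 _ _
      rw [zz_val h (by omega) hj, zz_val h hi hj]
      exact Or.inr (Or.inr (Or.inl ⟨rfl, le_rfl⟩))
    · intro i j hi hj
      unfold D
      rw [ex_ev h hi hj (fun l => (c l).2.1 = true), hκ i j hi hj]
      simp
    · intro i j γ hi hj
      unfold t
      rw [ex_ev h hi hj (fun l => (c l).1 = γ), hκ i j hi hj]
      exact eq_comm
    · -- owners
      intro v x
      unfold Own
      constructor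
      · rintro ⟨hx, h1⟩
        obtain ⟨i, j, hi, hj, rfl⟩ := (z_iff h x).1 hx
        refine ⟨i, j, hi, hj, ?_, rfl⟩
        unfold own
        rcases h1 with ⟨l, hl⟩ | ⟨y, hy, l, hl⟩
        · rw [reach_iff h, zz_val h hi hj] at hl
          simp only at hl
          simp only [Option.some.injEq, Prod.mk.injEq]
          omega
        · rw [ptn_iff h hi hj] at hy
          rw [reach_iff h, hy] at hl
          simp only at hl
          simp only [Option.some.injEq, Prod.mk.injEq]
          omega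
      · rintro ⟨i, j, hi, hj, h1, rfl⟩
        refine ⟨(z_iff h _).2 ⟨i, j, hi, hj, rfl⟩, ?_⟩
        have hk := h.2 i j hi hj
        unfold own at h1
        simp only [Option.some.injEq, Prod.mk.injEq] at h1
        obtain ⟨⟨a, b, s⟩, ha, hb, hs⟩ := v
        simp only at h1 ha hb hs
        obtain ⟨rfl, h2⟩ := h1
        rcases Nat.even_or_odd' b with ⟨j₀, rfl | rfl⟩
        · have h3 : j₀ = j := by omega
          subst h3
          rw [len_even] at hs
          left
          refine ⟨⟨s, by omega⟩, ?_⟩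
          refine (reach_iff h _ _ _).2 ?_
          rw [zz_val h hi hj]
          exact ⟨rfl, rfl, (Nat.zero_add _).symm⟩
        · have h3 : j₀ = j := by omega
          subst h3
          rw [len_odd] at hs
          right
          obtain ⟨w, hw⟩ := exists_pos (q := q) (κ := κ) (N := N) (i := a) (j := 2 * j₀ + 1) (t := 0) hi
            (by omega) (by rw [len_odd]; omega)
          refine ⟨w, (ptn_iff h hi hj w).2 hw, ⟨s, by omega⟩, ?_⟩
          refine (reach_iff h _ _ _).2 ?_
          rw [hw]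
          exact ⟨rfl, rfl, (Nat.zero_add _).symm⟩
    · intro v _
      exact ⟨v.1.1, v.1.2.1 / 2, v.2.1, by have := v.2.2.1; omega, rfl⟩
    · simp
  exact main.code

end Pool.Agent.Helper20.OP.W
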