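import Pool.Agent.Helper20.OP.W.Cov

/-!
# Block OP-V2: links and modules in the model

Proof of `link_iff`.  If `y = (i, j, t + 1)`, `x = (i, j, t)`: by `cov_iff`, as `t + 1 < len`, the only upper cover of `x` is `y`,
and the only lower cover of `y` is `x` (its last coordinate is not `0`).  Conversely let `Link x y`, so `Cov x y`.  Suppose
`y` is the first element of another cell, `x` the last element of its cell `(i, j)`.
* `y = (i, j + 1, 0)`: if `i + 1 < N` then `(i + 1, j, 0)` is another upper cover of `x`; if `i + 1 = N` (so `i ≥ 1`, as `N ≥ 2`)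
  the last element of the cell `(i - 1, j + 1)` is another lower cover of `y`.
* `y = (i + 1, j, 0)`: if `j + 1 < 2 N` then `(i, j + 1, 0)` is another upper cover of `x`; otherwise `j ≥ 1` and the last element
  of the cell `(i + 1, j - 1)` is another lower cover of `y`.
* `y = (i + 2, 0, 0)`, `j + 1 = 2 N`: `(i + 1, j, 0)` is another upper cover of `x`.
`reach_iff`: induction on `l`.  `blk_iff`: `x` has no link from below iff its last coordinate is `0`; `y` has no link to
above iff its last coordinate is `len - 1`.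
-/

set_option autoImplicit false

namespace Pool.Agent.Helper20.OP.W

variable {q : ℕ} {κ : ℕ → ℕ → ℕ} {N : ℕ}

private lemma pext {x y : Pos q κ N}
    (h1 : x.1.1 = y.1.1) (h2 : x.1.2.1 = y.1.2.1) (h3 : x.1.2.2 = y.1.2.2) : x = y :=
  Subtype.ext (Prod.ext h1 (Prod.ext h2 h3))

theorem link_iff (h : Good q κ N) (x y : Pos q κ N) : Link (pos q κ N) x y ↔
    (y.1.1 = x.1.1 ∧ y.1.2.1 = x.1.2.1 ∧ y.1.2.2 = x.1.2.2 + 1) := by
  obtain ⟨hx1, hx2, hx3⟩ := x.2
  obtain ⟨hy1, hy2, hy3⟩ := y.2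
  have hN : 2 ≤ N := h.1
  constructor
  · rintro ⟨hc, hu, hl⟩
    rw [cov_iff h] at hc
    rcases hc with hc | ⟨hc1, hc2, ⟨ha, hb⟩ | ⟨ha, hb⟩ | ⟨ha, hb, hb'⟩⟩
    · exact hc
    · exfalso
      by_cases hi : x.1.1 + 1 < N
      · have hp := len_pos h hi hx2
        have := hu ⟨(x.1.1 + 1, x.1.2.1, 0), hi, hx2, hp⟩
          ((cov_iff h _ _).mpr (Or.inr ⟨hc1, rfl, Or.inr (Or.inl ⟨rfl, rfl⟩)⟩))
        have e := congrArg (fun z : Pos q κ N => z.1.1) this
        dsimp only at e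
        omega
      · have hi' : x.1.1 - 1 < N := by omega
        have hp := len_pos h hi' hy2
        have := hl ⟨(x.1.1 - 1, y.1.2.1, len q κ (x.1.1 - 1) y.1.2.1 - 1), hi', hy2,
            Nat.sub_lt hp Nat.one_pos⟩
          ((cov_iff h _ _).mpr (Or.inr ⟨Nat.sub_add_cancel hp, hc2, Or.inr (Or.inl ⟨by
            change y.1.1 = x.1.1 - 1 + 1
            omega, rfl⟩)⟩))
        have e := congrArg (fun z : Pos q κ N => z.1.1) this
        dsimp only at e
        omega
    · exfalso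
      by_cases hj : x.1.2.1 + 1 < 2 * N
      · have hp := len_pos h hx1 hj
        have := hu ⟨(x.1.1, x.1.2.1 + 1, 0), hx1, hj, hp⟩
          ((cov_iff h _ _).mpr (Or.inr ⟨hc1, rfl, Or.inl ⟨rfl, rfl⟩⟩))
        have e := congrArg (fun z : Pos q κ N => z.1.1) this
        dsimp only at e
        omega
      · have hj' : x.1.2.1 - 1 < 2 * N := by omega
        have hp := len_pos h hy1 hj'
        have := hl ⟨(y.1.1, x.1.2.1 - 1, len q κ y.1.1 (x.1.2.1 - 1) - 1), hy1, hj',
            Nat.sub_lt hp Nat.one_pos⟩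
          ((cov_iff h _ _).mpr (Or.inr ⟨Nat.sub_add_cancel hp, hc2, Or.inl ⟨rfl, by
            change y.1.2.1 = x.1.2.1 - 1 + 1
            omega⟩⟩))
        have e := congrArg (fun z : Pos q κ N => z.1.1) this
        dsimp only at e
        omega
    · exfalso
      have hi : x.1.1 + 1 < N := by omega
      have hp := len_pos h hi hx2
      have := hu ⟨(x.1.1 + 1, x.1.2.1, 0), hi, hx2, hp⟩
        ((cov_iff h _ _).mpr (Or.inr ⟨hc1, rfl, Or.inr (Or.inl ⟨rfl, rfl⟩)⟩))
      have e := congrArg (fun z : Pos q κ N => z.1.1) this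
      dsimp only at e
      omega
  · rintro ⟨h1, h2, h3⟩
    have hlen : x.1.2.2 + 1 < len q κ x.1.1 x.1.2.1 := by
      rw [← h1, ← h2, ← h3]
      exact hy3
    refine ⟨(cov_iff h x y).mpr (Or.inl ⟨h1, h2, h3⟩), ?_, ?_⟩
    · intro z hz
      rw [cov_iff h] at hz
      rcases hz with ⟨a, b, c⟩ | ⟨a, _⟩
      · exact pext (a.trans h1.symm) (b.trans h2.symm) (c.trans h3.symm)
      · omega
    · intro z hz
      rw [cov_iff h] at hz
      rcases hz with ⟨a, b, c⟩ | ⟨_, a, _⟩
      · exact pext (a.symm.trans h1) (b.symm.trans h2) (by omega)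
      · omega

theorem reach_iff (h : Good q κ N) (l : ℕ) (x y : Pos q κ N) : Reach (pos q κ N) l x y ↔
    (y.1.1 = x.1.1 ∧ y.1.2.1 = x.1.2.1 ∧ y.1.2.2 = x.1.2.2 + l) := by
  induction l generalizing y with
  | zero =>
    change x = y ↔ _
    constructor
    · rintro rfl
      exact ⟨rfl, rfl, rfl⟩
    · rintro ⟨h1, h2, h3⟩
      exact pext h1.symm h2.symm h3.symm
  | succ l ih =>
    change (∃ z, Reach (pos q κ N) l x z ∧ Link (pos q κ N) z y) ↔ _
    constructor
    · rintro ⟨z, hz, hl⟩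
      rw [ih] at hz
      rw [link_iff h] at hl
      omega
    · rintro ⟨h1, h2, h3⟩
      obtain ⟨hy1, hy2, hy3⟩ := y.2
      refine ⟨⟨(y.1.1, y.1.2.1, x.1.2.2 + l), hy1, hy2, ?_⟩, ?_, ?_⟩
      · dsimp only
        omega
      · rw [ih]
        exact ⟨h1, h2, rfl⟩
      · rw [link_iff h]
        exact ⟨rfl, rfl, h3⟩

theorem blk_iff (h : Good q κ N) (l : ℕ) (x y : Pos q κ N) : Blk (pos q κ N) l x y ↔
    (y.1.1 = x.1.1 ∧ y.1.2.1 = x.1.2.1 ∧ x.1.2.2 = 0 ∧ y.1.2.2 = l ∧
      l + 1 = len q κ x.1.1 x.1.2.1) := by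
  obtain ⟨hx1, hx2, hx3⟩ := x.2
  obtain ⟨hy1, hy2, hy3⟩ := y.2
  constructor
  · rintro ⟨h1, h2, h3⟩
    rw [reach_iff h] at h2
    obtain ⟨a, b, c⟩ := h2
    have hx0 : x.1.2.2 = 0 := by
      by_contra hne
      refine h1 ⟨(x.1.1, x.1.2.1, x.1.2.2 - 1), hx1, hx2, ?_⟩ ?_
      · dsimp only
        omega
      · rw [link_iff h]
        refine ⟨rfl, rfl, ?_⟩
        dsimp only
        omega
    have hyl : y.1.2.2 + 1 = len q κ y.1.1 y.1.2.1 := by
      by_contra hne
      refine h3 ⟨(y.1.1, y.1.2.1, y.1.2.2 + 1), hy1, hy2, ?_⟩ ?_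
      · dsimp only
        omega
      · rw [link_iff h]
        exact ⟨rfl, rfl, rfl⟩
    refine ⟨a, b, hx0, by omega, ?_⟩
    rw [a, b] at hyl
    omega
  · rintro ⟨a, b, c, d, e⟩
    refine ⟨?_, ?_, ?_⟩
    · intro z hz
      rw [link_iff h] at hz
      omega
    · rw [reach_iff h]
      exact ⟨a, b, by omega⟩
    · intro z hz
      rw [link_iff h] at hz
      obtain ⟨a', b', c'⟩ := hz
      have hz3 := z.2.2.2
      rw [a', b', a, b] at hz3
      omega

end Pool.Agent.Helper20.OP.W
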