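import Pool.Agent.Helper20.OP.W.Model

/-!
# Block OP-V1: covers in the model

Proof of `cov_iff`.  If: `lt3` holds in each case; an element strictly between: check the four clauses of `lt3` twice
(`rcases` and `omega`).  Only if: let `(i, j, t) < (i', j', t')`.
* same cell: `t < t'`; if `t' ≠ t + 1`, then `(i, j, t + 1)` is between.
* otherwise, if `t` is not the last index of its module then `(i, j, t + 1)` is between; if `t' ≠ 0` then `(i', j', 0)` is
  between (it is above `(i, j, t)`, as the cells are different).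
* same row, `j < j'`: if `j' ≠ j + 1` then `(i, j + 1, 0)` is between.
* `i' = i + 1`, `j ≤ j'`: if `j' ≠ j` then `(i + 1, j, 0)` is between.
* `i' ≥ i + 2`: if `j < 2 N - 1` then `(i, j + 1, 0)` is between; so `j = 2 N - 1`; if `i' ≥ i + 3` then `(i + 1, 2 N - 1, 0)`
  is between; so `i' = i + 2`; if `j' ≠ 0` then `(i + 2, 0, 0)` is between.
(`len` is positive: `len_pos`.)
-/

set_option autoImplicit false

namespace Pool.Agent.Helper20.OP.W

variable {q : ℕ} {κ : ℕ → ℕ → ℕ} {N : ℕ}

lemma len_pos (h : Good q κ N) {i j : ℕ} (hi : i < N) (hj : j < 2 * N) : 0 < len q κ i j := by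
  have hk := h.2 i (j / 2) hi (by omega)
  unfold len
  split_ifs
  · omega
  · omega

lemma pos_irr (x : Pos q κ N) : ¬ pos q κ N 0 x x := by
  obtain ⟨⟨i, j, t⟩, hi, hj, ht⟩ := x
  intro h
  unfold pos lt3 at h
  simp only at h
  omega

lemma pos_trans (x y z : Pos q κ N) (h : pos q κ N 0 x y) (h' : pos q κ N 0 y z) :
    pos q κ N 0 x z := by
  obtain ⟨⟨i, j, t⟩, hi, hj, ht⟩ := x
  obtain ⟨⟨i', j', t'⟩, hi', hj', ht'⟩ := y
  obtain ⟨⟨i'', j'', t''⟩, hi'', hj'', ht''⟩ := z
  unfold pos lt3 at *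
  simp only at *
  omega

theorem cov_iff (h : Good q κ N) (x y : Pos q κ N) : Cov (pos q κ N) x y ↔
    (y.1.1 = x.1.1 ∧ y.1.2.1 = x.1.2.1 ∧ y.1.2.2 = x.1.2.2 + 1) ∨
    (x.1.2.2 + 1 = len q κ x.1.1 x.1.2.1 ∧ y.1.2.2 = 0 ∧
      ((y.1.1 = x.1.1 ∧ y.1.2.1 = x.1.2.1 + 1) ∨ (y.1.1 = x.1.1 + 1 ∧ y.1.2.1 = x.1.2.1) ∨
        (y.1.1 = x.1.1 + 2 ∧ x.1.2.1 + 1 = 2 * N ∧ y.1.2.1 = 0))) := by
  obtain ⟨⟨i, j, t⟩, hi, hj, ht⟩ := x
  obtain ⟨⟨i', j', t'⟩, hi', hj', ht'⟩ := y
  simp only at hi hj ht hi' hj' ht' ⊢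
  constructor
  · rintro ⟨h1, h2⟩
    have key : ∀ a b s, a < N → b < 2 * N → s < len q κ a b →
        ¬ (lt3 (i, j, t) (a, b, s) ∧ lt3 (a, b, s) (i', j', t')) :=
      fun a b s ha hb hs => h2 ⟨(a, b, s), ha, hb, hs⟩
    unfold pos at h1
    unfold lt3 at h1 key
    simp only at h1 key
    by_cases hs : i' = i ∧ j' = j
    · obtain ⟨rfl, rfl⟩ := hs
      have ht1 : t < t' := by omega
      left
      refine ⟨rfl, rfl, ?_⟩
      by_contra hne
      exact key i' j' (t + 1) hi hj (by omega) ⟨by omega, by omega⟩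
    · right
      have k1 : t + 1 = len q κ i j := by
        by_contra hne
        exact key i j (t + 1) hi hj (by omega) ⟨by omega, by omega⟩
      have k2 : t' = 0 := by
        by_contra hne
        exact key i' j' 0 hi' hj' (len_pos h hi' hj') ⟨by omega, by omega⟩
      refine ⟨k1, k2, ?_⟩
      have hN := h.1
      rcases h1 with h1 | h1 | h1 | h1
      · omega
      · left
        refine ⟨h1.1.symm, ?_⟩
        by_contra hne
        exact key i (j + 1) 0 hi (by omega) (len_pos h hi (by omega)) ⟨by omega, by omega⟩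
      · right; left
        refine ⟨h1.1, ?_⟩
        by_contra hne
        exact key (i + 1) j 0 (by omega) hj (len_pos h (by omega) hj) ⟨by omega, by omega⟩
      · right; right
        have e1 : j + 1 = 2 * N := by
          by_contra hne
          exact key i (j + 1) 0 hi (by omega) (len_pos h hi (by omega)) ⟨by omega, by omega⟩
        have e2 : i' = i + 2 := by
          by_contra hne
          exact key (i + 1) (2 * N - 1) 0 (by omega) (by omega) (len_pos h (by omega) (by omega))
            ⟨by omega, by omega⟩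
        refine ⟨e2, e1, ?_⟩
        by_contra hne
        exact key (i + 2) 0 0 (by omega) (by omega) (len_pos h (by omega) (by omega))
          ⟨by omega, by omega⟩
  · intro hr
    have hN := h.1
    refine ⟨?_, ?_⟩
    · unfold pos lt3
      simp only
      omega
    · rintro ⟨⟨a, b, s⟩, ha, hb, hs⟩ ⟨h1, h2⟩
      unfold pos lt3 at h1 h2
      simp only at h1 h2 ha hb hs
      by_cases hc : a = i ∧ b = j
      · obtain ⟨rfl, rfl⟩ := hc
        omega
      · by_cases hc' : a = i' ∧ b = j'
        · obtain ⟨rfl, rfl⟩ := hc'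
          omega
        · omega

end Pool.Agent.Helper20.OP.W
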