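import Pool.Agent.Helper20.OP.GridDef

/-!
# Posets of width two: the relations (and block OP-V0: they are definable)

In a poset (`R 0` is the strict order) a module is a maximal chain of links; a link is a pair `x, y` such that
`y` is the only upper cover of `x` and `x` is the only lower cover of `y`.  A module with `κ + 1 ≤ q` elements
is an even cell with the colour `κ`; a module with `2 q - κ` elements is an odd cell with the colour `κ`
(`κ < q`).  The colour `c κ = (tile, diagonal?, last column?)`.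
-/

set_option autoImplicit false

namespace Pool.Agent.Helper20.OP.W

open Pool.Agent.Helper29.Prefix

variable {V : Type}

/-- `y` covers `x` -/
def Cov (R : Str 1 V) (x y : V) : Prop := R 0 x y ∧ ∀ z, ¬ (R 0 x z ∧ R 0 z y)

/-- links -/
def Link (R : Str 1 V) (x y : V) : Prop :=
  Cov R x y ∧ (∀ z, Cov R x z → z = y) ∧ ∀ z, Cov R z y → z = x

/-- `y` is reached from `x` by `l` links -/
def Reach (R : Str 1 V) : ℕ → V → V → Prop
  | 0, x, y => x = y
  | l + 1, x, y => ∃ z, Reach R l x z ∧ Link R z y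

/-- the module with first element `x` and last element `y` has `l + 1` elements -/
def Blk (R : Str 1 V) (l : ℕ) (x y : V) : Prop :=
  (∀ z, ¬ Link R z x) ∧ Reach R l x y ∧ ∀ z, ¬ Link R y z

/-- `x` is the first element of an even cell with the colour `κ` -/
def Ev (R : Str 1 V) (κ : ℕ) (x : V) : Prop := ∃ y, Blk R κ x y

/-- `y` is the last element of the module with first element `x` -/
def Last (R : Str 1 V) (q : ℕ) (x y : V) : Prop := ∃ l : Fin (2 * q), Blk R l x y

variable {Γ : Type} {q : ℕ} (c : Fin q → Γ × Bool × Bool)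

/-- first elements of even cells -/
def Z (R : Str 1 V) (q : ℕ) (x : V) : Prop := ∃ κ : Fin q, Ev R κ x

/-- `y` is the first element of the odd cell which is the partner of the even cell `x` -/
def Ptn (R : Str 1 V) (q : ℕ) (x y : V) : Prop :=
  ∃ κ : Fin q, ∃ x' y', Blk R κ x x' ∧ Cov R x' y ∧ Blk R (2 * q - κ.1 - 1) y y'

/-- right neighbour -/
def RR (R : Str 1 V) (x z : V) : Prop :=
  Z R q x ∧ Z R q z ∧ (∃ κ : Fin q, (c κ).2.2 = false ∧ Ev R κ x) ∧
    ∃ y y', Ptn R q x y ∧ Last R q y y' ∧ Cov R y' z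

/-- upper neighbour -/
def UU (R : Str 1 V) (q : ℕ) (x z : V) : Prop :=
  Z R q x ∧ Z R q z ∧ ∃ x', Last R q x x' ∧ Cov R x' z

/-- diagonal -/
def D (R : Str 1 V) (x : V) : Prop := ∃ κ : Fin q, (c κ).2.1 = true ∧ Ev R κ x

/-- tile -/
def t (R : Str 1 V) (x : V) (γ : Γ) : Prop := ∃ κ : Fin q, (c κ).1 = γ ∧ Ev R κ x

/-- owner -/
def Own (R : Str 1 V) (q : ℕ) (v x : V) : Prop :=
  Z R q x ∧ ((∃ l : Fin (2 * q), Reach R l x v) ∨
    ∃ y, Ptn R q x y ∧ ∃ l : Fin (2 * q), Reach R l y v)

/-- the condition on a poset -/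
def Cond (W : Wang Γ) (R : Str 1 V) : Prop :=
  GridCode W (2 * q + 1) 0 (Z R q) (R 0) (RR c R) (UU R q) (D c R) (t c R) (Own R q)
    (fun _ => False)

section defs

private lemma dCov : Def2 1 (fun _ R x y => Cov R x y) := by
  unfold Def2 Cov
  refine (Def.rel 0 0 1).and (Def.all ?_)
  exact ((Def.rel 0 _ _).and (Def.rel 0 _ _)).not

private lemma dLink : Def2 1 (fun _ R x y => Link R x y) := by
  unfold Def2 Link
  refine Def.and dCov (Def.and (Def.all ?_) (Def.all ?_))
  · exact (Def2.app dCov _ _).imp (Def.eq _ _)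
  · exact (Def2.app dCov _ _).imp (Def.eq _ _)

private lemma dReach : ∀ l : ℕ, Def2 1 (fun _ R x y => Reach R l x y)
  | 0 => Def.eq 0 1
  | l + 1 => by
    unfold Def2
    simp only [Reach]
    refine Def.ex ?_
    exact (Def2.app (dReach l) _ _).and (Def2.app dLink _ _)

private lemma dBlk (l : ℕ) : Def2 1 (fun _ R x y => Blk R l x y) := by
  unfold Def2 Blk
  refine Def.and (Def.all ?_) (Def.and (dReach l) (Def.all ?_))
  · exact (Def2.app dLink _ _).not
  · exact (Def2.app dLink _ _).not

private lemma dEv (l : ℕ) : Def1 1 (fun _ R x => Ev R l x) := by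
  unfold Def1 Ev
  refine Def.ex ?_
  exact Def2.app (dBlk l) _ _

private lemma dLast (q : ℕ) : Def2 1 (fun _ R x y => Last R q x y) := by
  unfold Def2 Last
  exact Def.ex_fin (fun l => dBlk l)

private lemma dZ (q : ℕ) : Def1 1 (fun _ R x => Z R q x) := by
  unfold Def1 Z
  exact Def.ex_fin (fun κ => dEv κ)

private lemma dPtn (q : ℕ) : Def2 1 (fun _ R x y => Ptn R q x y) := by
  unfold Def2 Ptn
  refine Def.ex_fin (fun κ => ?_)
  refine Def.ex ?_
  refine Def.ex ?_
  exact (Def2.app (dBlk κ) _ _).and ((Def2.app dCov _ _).and (Def2.app (dBlk (2 * q - κ.1 - 1)) _ _))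

private lemma dRR : Def2 1 (fun _ R x y => RR c R x y) := by
  unfold Def2 RR
  refine (Def1.app (dZ q) _).and ((Def1.app (dZ q) _).and (Def.and (Def.ex_fin (fun κ => ?_)) (Def.ex (Def.ex ?_))))
  · exact (Def.const _).and (Def1.app (dEv κ) _)
  · exact (Def2.app (dPtn q) _ _).and ((Def2.app (dLast q) _ _).and (Def2.app dCov _ _))

private lemma dUU (q : ℕ) : Def2 1 (fun _ R x y => UU R q x y) := by
  unfold Def2 UU
  refine (Def1.app (dZ q) _).and ((Def1.app (dZ q) _).and (Def.ex ?_))
  exact (Def2.app (dLast q) _ _).and (Def2.app dCov _ _)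

private lemma dD : Def1 1 (fun _ R x => D c R x) := by
  unfold Def1 D
  refine Def.ex_fin (fun κ => ?_)
  exact (Def.const _).and (Def1.app (dEv κ) _)

private lemma dt (γ : Γ) : Def1 1 (fun _ R x => t c R x γ) := by
  unfold Def1 t
  refine Def.ex_fin (fun κ => ?_)
  exact (Def.const _).and (Def1.app (dEv κ) _)

private lemma dOwn (q : ℕ) : Def2 1 (fun _ R x y => Own R q x y) := by
  unfold Def2 Own
  refine (Def1.app (dZ q) _).and (Def.or (Def.ex_fin (fun l => ?_)) (Def.ex ?_))
  · exact Def2.app (dReach l) _ _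
  · refine (Def2.app (dPtn q) _ _).and (Def.ex_fin (fun l => ?_))
    exact Def2.app (dReach l) _ _

end defs

theorem def_cond [Finite Γ] (W : Wang Γ) : Def0 1 (fun _ R => Cond c W R) := by
  unfold Cond
  exact def_gridCode0 W (2 * q + 1) 0 (dZ q) (Def.rel 0 0 1) (dRR c) (dUU q) (dD c) (dt c) (dOwn q)
    (Def.const False)

end Pool.Agent.Helper20.OP.W
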