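import Pool.Agent.Helper20.OP.W.Def

/-!
# Posets of width two: the model

`κ i j < q` (`i, j < N`): the colour of the cell in row `i` and column `j`.  The elements are the triples
`(i, j, t)` with `i < N`, `j < 2 N` and `t < len i j`; the even column `2 j` has modules of length `κ i j + 1`, the odd column
`2 j + 1` modules of length `2 q - κ i j`.  The order of the cells `(i, j)`: `(i, j) < (i', j')` iff (`i = i'`, `j < j'`) or
(`i' = i + 1`, `j ≤ j'`) or `i + 2 ≤ i'`.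
-/

set_option autoImplicit false

namespace Pool.Agent.Helper20.OP.W

/-- the length of the module `(i, j)` -/
def len (q : ℕ) (κ : ℕ → ℕ → ℕ) (i j : ℕ) : ℕ :=
  if j % 2 = 0 then κ i (j / 2) + 1 else 2 * q - κ i (j / 2)

/-- the elements -/
def Pos (q : ℕ) (κ : ℕ → ℕ → ℕ) (N : ℕ) : Type :=
  {x : ℕ × ℕ × ℕ // x.1 < N ∧ x.2.1 < 2 * N ∧ x.2.2 < len q κ x.1 x.2.1}

/-- the order on triples -/
def lt3 (x y : ℕ × ℕ × ℕ) : Prop :=
  (x.1 = y.1 ∧ x.2.1 = y.2.1 ∧ x.2.2 < y.2.2) ∨ (x.1 = y.1 ∧ x.2.1 < y.2.1) ∨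
    (y.1 = x.1 + 1 ∧ x.2.1 ≤ y.2.1) ∨ x.1 + 2 ≤ y.1

/-- the poset -/
def pos (q : ℕ) (κ : ℕ → ℕ → ℕ) (N : ℕ) : Str 1 (Pos q κ N) := fun _ x y => lt3 x.1 y.1

/-- the standing assumptions on the colours -/
def Good (q : ℕ) (κ : ℕ → ℕ → ℕ) (N : ℕ) : Prop := 2 ≤ N ∧ ∀ i j, i < N → j < N → κ i j < q

end Pool.Agent.Helper20.OP.W
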